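import Pool.Agent.L5helper66.TD.Defs

/-!
# The commensurable case of the pyramids: an identity in a quadratic ring
-/

set_option autoImplicit false

open Pool.Agent.L5helper66.TD

namespace Pool.Agent.L5helper79.TD

theorem com_pyr_id (p q : ℕ) (hp : 0 < p) (hq : 0 < q) (hpq : q ^ 2 < 3 * p ^ 2) (α β : ℝ)
    (hα : 0 < α) (hα' : α < Real.pi) (hβ : 0 < β) (hβ' : β < Real.pi)
    (hca : Real.cos α = q / √(3 * (4 * (p : ℝ) ^ 2 - q ^ 2)))
    (hcb : Real.cos β = (2 * (p : ℝ) ^ 2 - q ^ 2) / (4 * p ^ 2 - q ^ 2))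
    (hr : ∃ r : ℚ, q * α + p * β = r * Real.pi) :
    ∃ M : ℕ, 0 < M ∧
      ((⟨q, 2⟩ : ℤ√((q : ℤ) ^ 2 - 3 * (p : ℤ) ^ 2)) ^ (q * M) * ⟨p, -1⟩ ^ (2 * p * M) =
        ⟨q, -2⟩ ^ (q * M) * ⟨p, 1⟩ ^ (2 * p * M)) := by
  obtain ⟨r, hr⟩ := hr
  have hpq' : (q : ℝ) ^ 2 < 3 * (p : ℝ) ^ 2 := by exact_mod_cast hpq
  have hp' : (0 : ℝ) < p := by exact_mod_cast hp
  have hq' : (0 : ℝ) < q := by exact_mod_cast hq
  obtain ⟨t, ht0, ht⟩ : ∃ t : ℝ, 0 < t ∧ t ^ 2 = 3 * (p : ℝ) ^ 2 - q ^ 2 :=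
    ⟨√(3 * (p : ℝ) ^ 2 - q ^ 2), Real.sqrt_pos.2 (by linarith), Real.sq_sqrt (by linarith)⟩
  have hW1 : 0 < 3 * (4 * (p : ℝ) ^ 2 - q ^ 2) := by nlinarith
  obtain ⟨W, hW0, hW, hWe⟩ : ∃ W : ℝ, 0 < W ∧ W ^ 2 = 3 * (4 * (p : ℝ) ^ 2 - q ^ 2) ∧
      √(3 * (4 * (p : ℝ) ^ 2 - q ^ 2)) = W :=
    ⟨_, Real.sqrt_pos.2 hW1, Real.sq_sqrt hW1.le, rfl⟩
  rw [hWe] at hca
  have hV : 0 < 4 * (p : ℝ) ^ 2 - q ^ 2 := by linarith
  have hsa : Real.sin α = 2 * t / W := by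
    have h1 := Real.sin_sq_add_cos_sq α
    have h2 : 0 < Real.sin α := Real.sin_pos_of_pos_of_lt_pi hα hα'
    have h3 : Real.sin α ^ 2 = (2 * t / W) ^ 2 := by
      rw [hca, div_pow] at h1
      rw [div_pow, eq_div_iff (by positivity)]
      have h4 : (q : ℝ) ^ 2 / W ^ 2 * W ^ 2 = q ^ 2 := by field_simp
      have h5 : (Real.sin α ^ 2 + (q : ℝ) ^ 2 / W ^ 2) * W ^ 2 = W ^ 2 := by rw [h1, one_mul]
      rw [add_mul, h4] at h5
      nlinarith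
    exact (sq_eq_sq₀ h2.le (by positivity)).1 h3
  have hcb' : Real.cos β * (4 * (p : ℝ) ^ 2 - q ^ 2) = 2 * (p : ℝ) ^ 2 - q ^ 2 := by
    rw [hcb, div_mul_cancel₀ _ hV.ne']
  have hsb' : Real.sin β * (4 * (p : ℝ) ^ 2 - q ^ 2) = 2 * p * t := by
    have h1 := Real.sin_sq_add_cos_sq β
    have h2 : 0 < Real.sin β := Real.sin_pos_of_pos_of_lt_pi hβ hβ'
    have h3 : (Real.sin β * (4 * (p : ℝ) ^ 2 - q ^ 2)) ^ 2 = (2 * p * t) ^ 2 := by
      have h4 : (Real.sin β * (4 * (p : ℝ) ^ 2 - q ^ 2)) ^ 2 =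
          (4 * (p : ℝ) ^ 2 - q ^ 2) ^ 2 - (Real.cos β * (4 * (p : ℝ) ^ 2 - q ^ 2)) ^ 2 := by
        linear_combination (4 * (p : ℝ) ^ 2 - q ^ 2) ^ 2 * h1
      rw [h4, hcb', show (2 * (p : ℝ) * t) ^ 2 = 4 * p ^ 2 * t ^ 2 by ring, ht]
      ring
    exact (sq_eq_sq₀ (by positivity) (by positivity)).1 h3
  -- the complex numbers
  set s : ℂ := (t : ℂ) * Complex.I with hs
  have hss : s * s = (((q : ℤ) ^ 2 - 3 * (p : ℤ) ^ 2 : ℤ) : ℂ) := by
    have h1 : ((t : ℂ)) ^ 2 = 3 * (p : ℂ) ^ 2 - (q : ℂ) ^ 2 := by exact_mod_cast ht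
    rw [hs]
    push_cast
    linear_combination (Complex.I * Complex.I) * h1 + (3 * (p : ℂ) ^ 2 - (q : ℂ) ^ 2) * Complex.I_mul_I
  have hss' : s ^ 2 = (q : ℂ) ^ 2 - 3 * (p : ℂ) ^ 2 := by
    rw [pow_two, hss]
    push_cast
    rfl
  have n1 : (q : ℂ) + 2 * s ≠ 0 := by
    intro h
    have := congrArg Complex.re h
    simp [hs] at this
    exact hq.ne' this
  have n2 : (p : ℂ) - s ≠ 0 := by
    intro h
    have := congrArg Complex.re h
    simp [hs] at this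
    exact hp.ne' this
  have e1 : Complex.exp (α * Complex.I) * W = q + 2 * s := by
    rw [Complex.exp_mul_I, ← Complex.ofReal_cos, ← Complex.ofReal_sin, hca, hsa, hs]
    have hW' : (W : ℂ) ≠ 0 := by exact_mod_cast hW0.ne'
    push_cast
    field_simp
  have e1' : Complex.exp (α * Complex.I) ^ 2 * (q - 2 * s) = q + 2 * s := by
    have hWc : (W : ℂ) ^ 2 = 3 * (4 * (p : ℂ) ^ 2 - (q : ℂ) ^ 2) := by exact_mod_cast hW
    have h1 : (q + 2 * s) * (Complex.exp (α * Complex.I) ^ 2 * (q - 2 * s)) = (q + 2 * s) * (q + 2 * s) := by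
      have h2 : (Complex.exp (α * Complex.I) * W) ^ 2 = (q + 2 * s) ^ 2 := by rw [e1]
      rw [mul_pow, hWc] at h2
      linear_combination h2 + (-4 * Complex.exp (α * Complex.I) ^ 2) * hss'
    exact mul_left_cancel₀ n1 h1
  have e2 : Complex.exp (β * Complex.I) * (4 * p ^ 2 - q ^ 2) = 2 * p ^ 2 - q ^ 2 + 2 * p * s := by
    have h1 : (Real.cos β : ℂ) * (4 * (p : ℂ) ^ 2 - q ^ 2) = 2 * (p : ℂ) ^ 2 - q ^ 2 := by exact_mod_cast hcb'
    have h2 : (Real.sin β : ℂ) * (4 * (p : ℂ) ^ 2 - q ^ 2) = 2 * p * t := by exact_mod_cast hsb'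
    rw [Complex.exp_mul_I, ← Complex.ofReal_cos, ← Complex.ofReal_sin, hs]
    linear_combination h1 + Complex.I * h2
  have e2' : Complex.exp (β * Complex.I) * (p + s) = -(p - s) := by
    have h1 : (p - s) * (Complex.exp (β * Complex.I) * (p + s)) = (p - s) * (-(p - s)) := by
      linear_combination e2 + (-Complex.exp (β * Complex.I) + 1) * hss'
    exact mul_left_cancel₀ n2 h1
  -- the exponential of the relation
  have e3 : (Complex.exp (α * Complex.I) ^ 2) ^ (q * r.den) * Complex.exp (β * Complex.I) ^ (2 * p * r.den) = 1 := by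
    rw [← pow_mul, ← Complex.exp_nat_mul, ← Complex.exp_nat_mul, ← Complex.exp_add]
    have hrc : (q : ℂ) * α + p * β = r * Real.pi := by exact_mod_cast hr
    have hrd : (r : ℂ) * r.den = r.num := by
      have := Rat.mul_den_eq_num r
      exact_mod_cast this
    have h1 : ((2 * (q * r.den) : ℕ) : ℂ) * (α * Complex.I) + ((2 * p * r.den : ℕ) : ℂ) * (β * Complex.I)
        = (r.num : ℂ) * (2 * Real.pi * Complex.I) := by
      push_cast
      linear_combination (2 * (r.den : ℂ) * Complex.I) * hrc + (2 * Real.pi * Complex.I) * hrd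
    rw [h1]
    exact Complex.exp_int_mul_two_pi_mul_I r.num
  refine ⟨r.den, r.den_pos, ?_⟩
  have hneg : ∀ n : ℤ, (q : ℤ) ^ 2 - 3 * (p : ℤ) ^ 2 ≠ n * n := by
    intro n h
    have h1 : (q : ℤ) ^ 2 < 3 * (p : ℤ) ^ 2 := by exact_mod_cast hpq
    nlinarith [mul_self_nonneg n]
  apply Zsqrtd.lift_injective (R := ℂ) ⟨s, hss⟩ hneg
  rw [map_mul, map_mul, map_pow, map_pow, map_pow, map_pow]
  simp only [Zsqrtd.lift_apply_apply]
  push_cast
  rw [show (q : ℂ) + -2 * s = q - 2 * s by ring, show (p : ℂ) + -1 * s = p - s by ring,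
    show (p : ℂ) + 1 * s = p + s by ring]
  have h1 : ((p : ℂ) - s) ^ (2 * p * r.den) = (-(p - s)) ^ (2 * p * r.den) := by
    rw [Even.neg_pow]
    exact ⟨p * r.den, by ring⟩
  rw [h1, ← e2']
  nth_rewrite 1 [← e1']
  rw [mul_pow, mul_pow]
  linear_combination ((q : ℂ) - 2 * s) ^ (q * r.den) * ((p : ℂ) + s) ^ (2 * p * r.den) * e3

end Pool.Agent.L5helper79.TD
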