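import Pool.Agent.L5helper66.TD.Defs

/-!
# Rational angles in the two families (Kronecker's theorem)
-/

set_option autoImplicit false

open Pool.Agent.L5helper66.TD

namespace Pool.Agent.L5helper79.TD

open scoped IntermediateField

/-- a common root of unity for two rational angles -/
lemma exists_root (r s : ℚ) : ∃ (n : ℕ) (ζ : ℂ) (a b : ℤ), 0 < n ∧ ζ ^ n = 1 ∧
    ζ ^ a + (ζ ^ a)⁻¹ = ((2 * Real.cos (r * Real.pi) : ℝ) : ℂ) ∧
    ζ ^ b + (ζ ^ b)⁻¹ = ((2 * Real.cos (s * Real.pi) : ℝ) : ℂ) := by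
  have hcos : ∀ z : ℂ, Complex.exp (z * Complex.I) + (Complex.exp (z * Complex.I))⁻¹ = 2 * Complex.cos z := by
    intro z
    rw [Complex.cos, ← Complex.exp_neg, neg_mul]
    ring
  have hr : (r.den : ℂ) ≠ 0 := by exact_mod_cast r.den_nz
  have hs : (s.den : ℂ) ≠ 0 := by exact_mod_cast s.den_nz
  refine ⟨2 * (r.den * s.den), Complex.exp (Real.pi * Complex.I / (r.den * s.den)), r.num * s.den,
    s.num * r.den, by have := r.den_pos; have := s.den_pos; positivity, ?_, ?_, ?_⟩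
  · rw [← Complex.exp_nat_mul]
    have : ((2 * (r.den * s.den) : ℕ) : ℂ) * (Real.pi * Complex.I / (r.den * s.den)) = 2 * Real.pi * Complex.I := by
      push_cast
      field_simp
    rw [this, Complex.exp_two_pi_mul_I]
  · rw [← Complex.exp_int_mul]
    have : ((r.num * s.den : ℤ) : ℂ) * (Real.pi * Complex.I / (r.den * s.den)) = ((r : ℂ) * Real.pi) * Complex.I := by
      rw [Rat.cast_def]
      push_cast
      field_simp
    rw [this, hcos]
    push_cast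
    rfl
  · rw [← Complex.exp_int_mul]
    have : ((s.num * r.den : ℤ) : ℂ) * (Real.pi * Complex.I / (r.den * s.den)) = ((s : ℂ) * Real.pi) * Complex.I := by
      rw [Rat.cast_def]
      push_cast
      field_simp
    rw [this, hcos]
    push_cast
    rfl

lemma unit_sum {w : ℂ} {n : ℕ} (hn : 0 < n) (hw : w ^ n = 1) :
    w + w⁻¹ = ((2 * w.re : ℝ) : ℂ) ∧ |2 * w.re| ≤ 2 := by
  have h1 : ‖w‖ = 1 := by
    have h2 : ‖w‖ ^ n = 1 := by rw [← norm_pow, hw, norm_one]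
    exact (pow_eq_one_iff_of_nonneg (norm_nonneg w) hn.ne').1 h2
  constructor
  · rw [Complex.inv_eq_conj h1, Complex.add_conj]
  · have := Complex.abs_re_le_norm w
    rw [abs_mul, abs_two]
    linarith

lemma main (r s : ℚ) (A B C : ℤ) (D E : ℚ) (hDE : ∀ t : ℝ, |t| ≤ 2 → |(D : ℝ) + E * t| ≤ 1)
    (h : (A : ℝ) + B * (2 * Real.cos (r * Real.pi)) + C * (2 * Real.cos (s * Real.pi)) =
      D + E * (2 * Real.cos (r * Real.pi))) :
    (D : ℝ) + E * (2 * Real.cos (r * Real.pi)) = 0 ∨ (D : ℝ) + E * (2 * Real.cos (r * Real.pi)) = 1 ∨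
      (D : ℝ) + E * (2 * Real.cos (r * Real.pi)) = -1 := by
  obtain ⟨n, ζ, a, b, hn, hζ, ha, hb⟩ := exists_root r s
  have hint : IsIntegral ℚ ζ := IsIntegral.of_pow hn (by rw [hζ]; exact isIntegral_one)
  have : FiniteDimensional ℚ ℚ⟮ζ⟯ := IntermediateField.adjoin.finiteDimensional hint
  have : NumberField ℚ⟮ζ⟯ := { to_charZero := inferInstance, to_finiteDimensional := inferInstance }
  set g : ℚ⟮ζ⟯ := IntermediateField.AdjoinSimple.gen ℚ ζ with hg
  have hgc : ((g : ℚ⟮ζ⟯) : ℂ) = ζ := IntermediateField.AdjoinSimple.coe_gen ℚ ζ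
  have hgn : g ^ n = 1 := by
    apply Subtype.ext
    push_cast
    rw [hgc, hζ]
  have hgk : ∀ k : ℤ, ((g ^ k : ℚ⟮ζ⟯) : ℂ) = ζ ^ k := by
    intro k
    have h1 := map_zpow₀ (algebraMap ℚ⟮ζ⟯ ℂ) g k
    have h2 : (algebraMap ℚ⟮ζ⟯ ℂ) g = ζ := hgc
    rw [h2] at h1
    exact h1
  have hk : ∀ k : ℤ, (g ^ k) ^ n = 1 := by
    intro k
    rw [← zpow_natCast, ← zpow_mul, mul_comm, zpow_mul, zpow_natCast, hgn, one_zpow]
  have hki : ∀ k : ℤ, ((g ^ k)⁻¹) ^ n = 1 := by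
    intro k
    rw [inv_pow, hk k, inv_one]
  have hI : ∀ k : ℤ, IsIntegral ℤ (g ^ k + (g ^ k)⁻¹) := fun k =>
    (IsIntegral.of_pow hn (by rw [hk k]; exact isIntegral_one)).add
      (IsIntegral.of_pow hn (by rw [hki k]; exact isIntegral_one))
  have hZA : ∀ m : ℤ, IsIntegral ℤ ((m : ℚ⟮ζ⟯)) := fun m => by
    have := isIntegral_algebraMap (R := ℤ) (A := ℚ⟮ζ⟯) (x := m)
    simpa using this
  set Z : ℚ⟮ζ⟯ := (A : ℚ⟮ζ⟯) + B * (g ^ a + (g ^ a)⁻¹) + C * (g ^ b + (g ^ b)⁻¹) with hZ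
  have hZI : IsIntegral ℤ Z := ((hZA A).add ((hZA B).mul (hI a))).add ((hZA C).mul (hI b))
  set u : ℝ := (D : ℝ) + E * (2 * Real.cos (r * Real.pi)) with hu
  have hZc : ((Z : ℚ⟮ζ⟯) : ℂ) = (u : ℂ) := by
    rw [← h, hZ]
    push_cast
    rw [hgk, hgk, ha, hb]
    push_cast
    ring
  have hZ2 : Z = (D : ℚ⟮ζ⟯) + E * (g ^ a + (g ^ a)⁻¹) := by
    apply Subtype.ext
    rw [hZc, hu]
    push_cast
    rw [hgk, ha]
    push_cast
    ring
  have hφ : ∀ φ : ℚ⟮ζ⟯ →+* ℂ, ‖φ Z‖ ≤ 1 := by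
    intro φ
    have h1 : (φ (g ^ a)) ^ n = 1 := by rw [← map_pow, hk a, map_one]
    obtain ⟨h2, h3⟩ := unit_sum hn h1
    rw [hZ2]
    rw [map_add, map_mul, map_add, map_inv₀, map_ratCast, map_ratCast, h2]
    have h4 : (D : ℂ) + (E : ℂ) * ((2 * (φ (g ^ a)).re : ℝ) : ℂ) = (((D : ℝ) + E * (2 * (φ (g ^ a)).re) : ℝ) : ℂ) := by
      push_cast
      ring
    rw [h4, Complex.norm_real]
    exact hDE _ h3
  by_cases hZ0 : Z = 0
  · left
    rw [hZ0] at hZc
    have : ((u : ℝ) : ℂ) = 0 := by rw [← hZc]; rfl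
    exact_mod_cast this
  · right
    obtain ⟨m, hm, hm1⟩ := NumberField.Embeddings.pow_eq_one_of_norm_le_one ℚ⟮ζ⟯ ℂ hZ0 hZI hφ
    have h5 : ((u : ℝ) : ℂ) ^ m = 1 := by
      rw [← hZc]
      have := congrArg (fun t : ℚ⟮ζ⟯ => (t : ℂ)) hm1
      simpa using this
    have h6 : u ^ m = 1 := by exact_mod_cast h5
    have h7 : |u| = 1 := by
      have h8 : |u| ^ m = 1 := by rw [← abs_pow, h6, abs_one]
      exact (pow_eq_one_iff_of_nonneg (abs_nonneg u) hm.ne').1 h8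
    exact eq_or_eq_neg_of_abs_eq h7

theorem rat_pyr (α β : ℝ) (hα : ∃ r : ℚ, α = r * Real.pi) (hβ : ∃ r : ℚ, β = r * Real.pi)
    (h : 4 * Real.cos β + 3 * Real.cos (2 * α) + 1 = 0) : Real.cos β = 1 / 2 ∨ Real.cos β = -1 := by
  obtain ⟨s, hs⟩ := hα
  obtain ⟨r, rfl⟩ := hβ
  have hs2 : 2 * α = ((2 * s : ℚ) : ℝ) * Real.pi := by
    rw [hs]
    push_cast
    ring
  rw [hs2] at h
  have key := main r (2 * s) (-1) (-1) (-1) (-1 / 3) (1 / 3) (by
    intro t ht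
    obtain ⟨h1, h2⟩ := abs_le.1 ht
    rw [abs_le]
    push_cast
    constructor <;> linarith) (by push_cast; push_cast at h; linarith)
  push_cast at key
  rcases key with h1 | h1 | h1
  · left
    linarith
  · exfalso
    have := Real.cos_le_one ((r : ℝ) * Real.pi)
    linarith
  · right
    linarith

theorem rat_dis (α β : ℝ) (hα : ∃ r : ℚ, α = r * Real.pi) (hβ : ∃ r : ℚ, β = r * Real.pi)
    (h : Real.cos α + 2 * Real.cos β = 1) : Real.cos α = 0 ∨ Real.cos α = 1 ∨ Real.cos α = -1 := by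
  obtain ⟨r, rfl⟩ := hα
  obtain ⟨s, rfl⟩ := hβ
  have key := main r s 1 0 (-1) 0 (1 / 2) (by
    intro t ht
    obtain ⟨h1, h2⟩ := abs_le.1 ht
    rw [abs_le]
    push_cast
    constructor <;> linarith) (by push_cast; linarith)
  push_cast at key
  rcases key with h1 | h1 | h1
  · left
    linarith
  · right; left
    linarith
  · right; right
    linarith

end Pool.Agent.L5helper79.TD
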