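import Pool.Agent.L5helper32.GR.Defs

/-!
# The choice of the parameters in the good descents

The parameters are chosen for any functions `s` (for `sg p 0`) and `r` (for `sg p`) with the two bounds.
-/

set_option autoImplicit false

open Finset Filter

namespace Pool.Agent.L5helper32.GR

/-- the eventual inequalities -/
lemma params_ev (p : ℕ) : ∃ Y₀ : ℕ, ∀ Y : ℕ, Y₀ ≤ Y →
    32 ≤ Real.log Y ∧ 1 ≤ Real.log (Real.log Y) ∧
    (Real.log Y) ^ (2 * p + 3) ≤ (Y : ℝ) ^ (1 / 4 : ℝ) ∧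
    4100 * (Real.log Y) ^ (2 * p + 3) ≤ Y ∧
    ((2 * p + 3 : ℕ) : ℝ) * Real.log (Real.log Y) + Real.log 2 ≤ Real.log Y / 2 := by
  have hlog : Tendsto (fun Y : ℕ => Real.log (Y : ℝ)) atTop atTop :=
    Real.tendsto_log_atTop.comp tendsto_natCast_atTop_atTop
  have h1 : ∀ᶠ Y : ℕ in atTop, 32 ≤ Real.log (Y : ℝ) := hlog.eventually_ge_atTop 32
  have h2 : ∀ᶠ Y : ℕ in atTop, 1 ≤ Real.log (Real.log (Y : ℝ)) :=
    (Real.tendsto_log_atTop.comp hlog).eventually_ge_atTop 1
  have h3 : ∀ᶠ Y : ℕ in atTop, (Real.log (Y : ℝ)) ^ (2 * p + 3) ≤ (Y : ℝ) ^ (1 / 4 : ℝ) := by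
    have h := (isLittleO_log_rpow_rpow_atTop (s := 1 / 4) ((2 * p + 3 : ℕ) : ℝ) (by norm_num)).bound
      (c := 1) one_pos
    have h' := tendsto_natCast_atTop_atTop (R := ℝ) |>.eventually h
    filter_upwards [h', h1] with Y hY hY1
    have e1 : (0 : ℝ) ≤ Real.log (Y : ℝ) := by linarith
    rw [one_mul, Real.norm_of_nonneg (Real.rpow_nonneg e1 _),
      Real.norm_of_nonneg (Real.rpow_nonneg (Nat.cast_nonneg _) _), Real.rpow_natCast] at hY
    exact hY
  have h4 : ∀ᶠ Y : ℕ in atTop, 4100 * (Real.log (Y : ℝ)) ^ (2 * p + 3) ≤ Y := by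
    have h := (Real.isLittleO_pow_log_id_atTop (n := 2 * p + 3)).bound (c := 1 / 4100) (by norm_num)
    have h' := tendsto_natCast_atTop_atTop (R := ℝ) |>.eventually h
    filter_upwards [h', h1] with Y hY hY1
    have e1 : (0 : ℝ) ≤ Real.log (Y : ℝ) := by linarith
    rw [Real.norm_of_nonneg (pow_nonneg e1 _), id, Real.norm_of_nonneg (Nat.cast_nonneg _)] at hY
    linarith
  have h5 : ∀ᶠ Y : ℕ in atTop,
      ((2 * p + 3 : ℕ) : ℝ) * Real.log (Real.log Y) + Real.log 2 ≤ Real.log Y / 2 := by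
    have h := Real.isLittleO_log_id_atTop.bound (c := 1 / (4 * ((2 * p + 3 : ℕ) : ℝ))) (by positivity)
    have h' := hlog.eventually h
    filter_upwards [h', h1, h2] with Y hY hY1 hY2
    have e1 : (0 : ℝ) ≤ Real.log (Y : ℝ) := by linarith
    have e2 : (0 : ℝ) ≤ Real.log (Real.log (Y : ℝ)) := by linarith
    rw [Real.norm_of_nonneg e2, id, Real.norm_of_nonneg e1, div_mul_eq_mul_div, one_mul,
      le_div_iff₀ (by positivity)] at hY
    have : Real.log 2 ≤ 1 := by
      have := Real.log_two_lt_d9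
      linarith
    linarith
  obtain ⟨Y₀, hY₀⟩ := eventually_atTop.1 (h1.and (h2.and (h3.and (h4.and h5))))
  exact ⟨Y₀, fun Y hY => hY₀ Y hY⟩

/-- the parameters, for abstract functions -/
theorem params_abs {p : ℕ} (s : ℕ → ℝ) (r : ℕ → ℕ → ℝ) {c C₀ : ℝ} (hc : 0 < c) (hC₀ : 0 < C₀)
    (hs0 : ∀ y, 0 < s y) (hs1 : ∀ y, s y ≤ 1) (hs : ∀ y : ℕ, 2 ≤ y → c / (Real.log y) ^ p ≤ s y)
    (hr : ∀ a b : ℕ, 2 ≤ a → a ≤ b → 1 - r a b ≤ C₀ * (Real.log b / Real.log a - 1 + 1 / Real.log a))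
    (C₁ : ℝ) : ∃ C : ℝ, 0 < C ∧ ∃ Y₀ : ℕ, ∀ Y ≥ Y₀,
    ∃ j y G : ℕ, 1 ≤ G ∧ 1 ≤ y ∧ Y < G ^ 2 ∧ 8 * (j * (y + G)) ≤ Y ∧
      (1 - r y (Y + 2)) + j * ((C₁ * (Y : ℝ) ^ (3 / 4 : ℝ) + p * y) / G) + (1 - s y) ^ j
        ≤ C * (Real.log (Real.log Y) / Real.log Y) := by
  obtain ⟨Y₀, hY₀⟩ := params_ev p
  refine ⟨C₀ * (2 * (((2 * p + 3 : ℕ) : ℝ) + 3)) + 128 * (|C₁| + p) + 1 / c, by positivity, Y₀,
    fun Y hY => ?_⟩
  obtain ⟨h32, hll, hq, hx, hhalf⟩ := hY₀ Y hY
  set x : ℝ := (Y : ℝ) with hxdef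
  set l : ℝ := Real.log x with hl
  set A : ℕ := 2 * p + 3 with hA
  have hl0 : 0 < l := by linarith
  have hl1 : 1 ≤ l := by linarith
  have hlA1 : (1 : ℝ) ≤ l ^ A := one_le_pow₀ hl1
  have hx0 : 0 < x := by nlinarith
  have hlp : (1 : ℝ) ≤ l ^ (p + 1) := one_le_pow₀ hl1
  -- the parameter `j`
  set j : ℕ := ⌈l ^ (p + 1)⌉₊ with hj
  have hj1 : l ^ (p + 1) ≤ j := Nat.le_ceil _
  have hj2 : (j : ℝ) ≤ 2 * l ^ (p + 1) := by
    have := Nat.ceil_lt_add_one (a := l ^ (p + 1)) (by positivity)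
    linarith
  have hj0 : (0 : ℝ) < j := lt_of_lt_of_le (by positivity) hj1
  -- the parameter `y`
  set y : ℕ := ⌊x / l ^ A⌋₊ with hy
  have hy2 : (y : ℝ) ≤ x / l ^ A := Nat.floor_le (by positivity)
  have hxA : 4100 ≤ x / l ^ A := by
    rw [le_div_iff₀ (by positivity)]
    exact hx
  have hy1 : x / l ^ A / 2 ≤ y := by
    have := Nat.lt_floor_add_one (x / l ^ A)
    linarith
  have hy2' : 2 ≤ y := by
    have : (2 : ℝ) ≤ y := by linarith
    exact_mod_cast this
  have hyY : y ≤ Y := by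
    have : (y : ℝ) ≤ (Y : ℝ) := hy2.trans (div_le_self hx0.le hlA1)
    exact_mod_cast this
  have hy0 : (0 : ℝ) < y := by positivity
  -- the powers of `l`
  have hpow : l ^ A = l ^ (p + 1) * l ^ (p + 1) * l := by
    rw [hA]
    ring
  have h16 : 16 * (j : ℝ) ≤ l ^ A := by
    have : (32 : ℝ) ≤ l ^ (p + 1) * l := by nlinarith
    rw [hpow]
    nlinarith
  -- the parameter `G`
  set G : ℕ := ⌊x / (16 * j)⌋₊ with hG
  have hG2 : (G : ℝ) ≤ x / (16 * j) := Nat.floor_le (by positivity)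
  have hx32 : 4100 * l ^ (p + 1) * l ≤ x / l ^ (p + 1) := by
    rw [le_div_iff₀ (by positivity)]
    rw [hpow] at hx
    linarith
  have hxj : x / l ^ (p + 1) / 32 ≤ x / (16 * j) := by
    rw [div_div]
    exact div_le_div_of_nonneg_left hx0.le (by positivity) (by linarith)
  have hbig : (2 : ℝ) ≤ x / l ^ (p + 1) / 32 := by
    have : (1 : ℝ) ≤ l ^ (p + 1) * l := by nlinarith
    linarith
  have hG1 : x / l ^ (p + 1) / 64 ≤ G := by
    have := Nat.lt_floor_add_one (x / (16 * (j : ℝ)))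
    linarith
  have hG1' : (1 : ℝ) ≤ G := by linarith
  have hG0 : (0 : ℝ) < G := by linarith
  refine ⟨j, y, G, by exact_mod_cast hG1', by omega, ?_, ?_, ?_⟩
  · -- `Y < G ^ 2`
    have h1 : x < (x / l ^ (p + 1) / 64) ^ 2 := by
      have e : (x / l ^ (p + 1) / 64) ^ 2 = x * (x / (4096 * (l ^ (p + 1) * l ^ (p + 1)))) := by
        field_simp
        ring
      rw [e]
      refine lt_mul_of_one_lt_right hx0 ?_
      rw [one_lt_div (by positivity)]
      have h2 : l ^ (p + 1) * l ^ (p + 1) ≤ l ^ A := by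
        rw [hpow]
        exact le_mul_of_one_le_right (by positivity) hl1
      have h3 : 0 < l ^ (p + 1) * l ^ (p + 1) := by positivity
      linarith
    have h2 : (x / l ^ (p + 1) / 64) ^ 2 ≤ (G : ℝ) ^ 2 := pow_le_pow_left₀ (by positivity) hG1 2
    have h3 : (Y : ℝ) < ((G ^ 2 : ℕ) : ℝ) := by
      push_cast
      linarith
    exact_mod_cast h3
  · -- `8 j (y + G) ≤ Y`
    have h1 : (y : ℝ) ≤ x / (16 * j) :=
      hy2.trans (div_le_div_of_nonneg_left hx0.le (by positivity) h16)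
    have h2 : 8 * ((j : ℝ) * (y + G)) ≤ (Y : ℝ) := by
      have h3 : (y : ℝ) + G ≤ x / (8 * j) := by
        have : x / (8 * j) = x / (16 * j) + x / (16 * j) := by
          field_simp
          norm_num
        linarith
      calc 8 * ((j : ℝ) * (y + G)) ≤ 8 * (j * (x / (8 * j))) := by gcongr
        _ = x := by field_simp
    exact_mod_cast h2
  · have hfrac : 0 ≤ Real.log l / l := by positivity
    have hone : 1 / l ≤ Real.log l / l := by gcongr
    -- the first term
    have hlogy : l / 2 ≤ Real.log y := by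
      have h1 : Real.log (x / l ^ A / 2) ≤ Real.log y := Real.log_le_log (by positivity) hy1
      rw [Real.log_div (by positivity) (by norm_num), Real.log_div hx0.ne' (by positivity),
        Real.log_pow] at h1
      linarith
    have hlogy' : l - A * Real.log l - Real.log 2 ≤ Real.log y := by
      have h1 : Real.log (x / l ^ A / 2) ≤ Real.log y := Real.log_le_log (by positivity) hy1
      rw [Real.log_div (by positivity) (by norm_num), Real.log_div hx0.ne' (by positivity),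
        Real.log_pow] at h1
      linarith
    have hlogy0 : 0 < Real.log y := by linarith
    have hyx : (y : ℝ) ≤ (Y : ℝ) := by exact_mod_cast hyY
    have hlogy2 : Real.log y ≤ l := Real.log_le_log hy0 hyx
    have hlog2 : Real.log 2 ≤ 1 := by
      have := Real.log_two_lt_d9
      linarith
    have t1 : 1 - r y (Y + 2) ≤ C₀ * (2 * ((A : ℝ) + 3)) * (Real.log l / l) := by
      refine (hr y (Y + 2) hy2' (by omega)).trans ?_
      rw [mul_assoc]
      refine mul_le_mul_of_nonneg_left ?_ hC₀.le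
      have h1 : Real.log ((Y + 2 : ℕ) : ℝ) ≤ l + 1 := by
        push_cast
        have h2 : x + 2 ≤ x * Real.exp 1 := by
          have := Real.add_one_le_exp (1 : ℝ)
          nlinarith
        have h3 := Real.log_le_log (by positivity) h2
        rw [Real.log_mul hx0.ne' (Real.exp_pos 1).ne', Real.log_exp] at h3
        exact h3
      have h4 : Real.log ((Y + 2 : ℕ) : ℝ) / Real.log y - 1 + 1 / Real.log y
          = (Real.log ((Y + 2 : ℕ) : ℝ) - Real.log y + 1) / Real.log y := by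
        field_simp
      rw [h4, div_le_iff₀ hlogy0]
      have h5 : Real.log ((Y + 2 : ℕ) : ℝ) - Real.log y + 1 ≤ ((A : ℝ) + 3) * Real.log l := by
        nlinarith
      have h6 : 0 ≤ 2 * ((A : ℝ) + 3) * (Real.log l / l) := by positivity
      have h7 : 2 * ((A : ℝ) + 3) * (Real.log l / l) * (l / 2) = ((A : ℝ) + 3) * Real.log l := by
        field_simp
      calc _ ≤ ((A : ℝ) + 3) * Real.log l := h5
        _ = 2 * ((A : ℝ) + 3) * (Real.log l / l) * (l / 2) := h7.symm
        _ ≤ _ := mul_le_mul_of_nonneg_left hlogy h6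
    -- the second term
    have t2 : (j : ℝ) * ((C₁ * x ^ (3 / 4 : ℝ) + p * y) / G)
        ≤ 128 * (|C₁| + p) * (Real.log l / l) := by
      have hx34 : 0 ≤ x ^ (3 / 4 : ℝ) := by positivity
      have h1 : C₁ * x ^ (3 / 4 : ℝ) + p * y ≤ (|C₁| + p) * (x / l ^ A) := by
        have h2 : x ^ (3 / 4 : ℝ) ≤ x / l ^ A := by
          rw [le_div_iff₀ (by positivity)]
          calc x ^ (3 / 4 : ℝ) * l ^ A ≤ x ^ (3 / 4 : ℝ) * x ^ (1 / 4 : ℝ) := by gcongr
            _ = x := by rw [← Real.rpow_add hx0]; norm_num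
        have h3 : C₁ * x ^ (3 / 4 : ℝ) ≤ |C₁| * (x / l ^ A) :=
          mul_le_mul (le_abs_self _) h2 hx34 (abs_nonneg _)
        have h4 : (p : ℝ) * y ≤ p * (x / l ^ A) := by gcongr
        linarith
      have h5 : (C₁ * x ^ (3 / 4 : ℝ) + p * y) / G
          ≤ (|C₁| + p) * (x / l ^ A) / (x / l ^ (p + 1) / 64) :=
        div_le_div₀ (by positivity) h1 (by positivity) hG1
      have h6 : (j : ℝ) * ((C₁ * x ^ (3 / 4 : ℝ) + p * y) / G)
          ≤ 2 * l ^ (p + 1) * ((|C₁| + p) * (x / l ^ A) / (x / l ^ (p + 1) / 64)) :=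
        (mul_le_mul_of_nonneg_left h5 hj0.le).trans
          (mul_le_mul_of_nonneg_right hj2 (by positivity))
      have h7 : 2 * l ^ (p + 1) * ((|C₁| + p) * (x / l ^ A) / (x / l ^ (p + 1) / 64))
          = 128 * (|C₁| + p) * (1 / l) := by
        rw [hpow]
        field_simp
        ring
      rw [h7] at h6
      exact h6.trans (mul_le_mul_of_nonneg_left hone (by positivity))
    -- the third term
    have t3 : (1 - s y) ^ j ≤ 1 / c * (Real.log l / l) := by
      have h1 : (1 - s y) ^ j ≤ Real.exp (-(s y * j)) := by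
        have h2 : 1 - s y ≤ Real.exp (-s y) := Real.one_sub_le_exp_neg _
        have h3 : (1 - s y) ^ j ≤ (Real.exp (-s y)) ^ j :=
          pow_le_pow_left₀ (by linarith [hs1 y]) h2 j
        rw [← Real.exp_nat_mul] at h3
        rwa [show (j : ℝ) * -s y = -(s y * j) by ring] at h3
      have h4 : c * l ≤ s y * j := by
        have h5 : c / l ^ p ≤ s y := by
          refine le_trans ?_ (hs y hy2')
          exact div_le_div_of_nonneg_left hc.le (by positivity)
            (pow_le_pow_left₀ hlogy0.le hlogy2 p)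
        calc c * l = c / l ^ p * l ^ (p + 1) := by
              rw [pow_succ]
              field_simp
          _ ≤ s y * j := mul_le_mul h5 hj1 (by positivity) (hs0 y).le
      have h6 : Real.exp (-(s y * j)) ≤ 1 / (c * l) := by
        have h7 : c * l ≤ Real.exp (c * l) := by
          have := Real.add_one_le_exp (c * l)
          linarith
        calc Real.exp (-(s y * j)) ≤ Real.exp (-(c * l)) := Real.exp_le_exp.2 (by linarith)
          _ = 1 / Real.exp (c * l) := by rw [Real.exp_neg, one_div]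
          _ ≤ 1 / (c * l) := one_div_le_one_div_of_le (by positivity) h7
      have h8 : 1 / (c * l) = 1 / c * (1 / l) := by field_simp
      rw [h8] at h6
      exact (h1.trans h6).trans (mul_le_mul_of_nonneg_left hone (by positivity))
    calc _ ≤ C₀ * (2 * ((A : ℝ) + 3)) * (Real.log l / l) + 128 * (|C₁| + p) * (Real.log l / l)
          + 1 / c * (Real.log l / l) := add_le_add (add_le_add t1 t2) t3
      _ = _ := by ring

end Pool.Agent.L5helper32.GR
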